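import Mathlib
import Pool.Agent.X69.Star.Defs
import Pool.Agent.X69.Star.Asymp

/-! The lower threshold bias of the strict Avoider-Enforcer star game. -/

namespace Pool.Agent.Results.MP_64b4f3_co.LowerThreshold

open Pool.Agent.X69.Star Filter Asymptotics

/-- For every fixed `k ≥ 3`, the lower threshold bias of the strict `(1 : b)` Avoider-Enforcer
`k`-star game on the complete graph on `n` vertices is of order `n ^ ((k + 1) / k)` for all
sufficiently large `n`. -/
theorem result (k : ℕ) (hk : 3 ≤ k) :
    (fun n : ℕ => (fMinus n k : ℝ)) =Θ[atTop] fun n : ℕ => (n : ℝ) ^ (((k : ℝ) + 1) / k) :=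
  fMinus_theta k hk

end Pool.Agent.Results.MP_64b4f3_co.LowerThreshold
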