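import Mathlib
import Pool.Agent.X69.Star.Defs
import Pool.Agent.X69.Star.Asymp

/-! The upper threshold bias of the strict Avoider-Enforcer star game. -/

namespace Pool.Agent.Results.MP_64b4f3_co.UpperThreshold

open Pool.Agent.X69.Star Filter Asymptotics

/-- For every fixed `k ≥ 3`, the upper threshold bias of the strict `(1 : b)` Avoider-Enforcer
`k`-star game on the complete graph on `n` vertices is of order `n ^ (k / (k - 1))` for all
sufficiently large `n`. -/
theorem result (k : ℕ) (hk : 3 ≤ k) :
    (fun n : ℕ => (fPlus n k : ℝ)) =Θ[atTop]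
      fun n : ℕ => (n : ℝ) ^ ((k : ℝ) / ((k : ℝ) - 1)) :=
  fPlus_theta k hk

end Pool.Agent.Results.MP_64b4f3_co.UpperThreshold
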